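import Pool.Agent.Helper328.UniF

/-!
# The spectrum of the unicellular operator is a closed disc

`TT G` is the operator of `Pool.Agent.Helper328.Uni` on `ℓ²(ℕ, ℂ)`. If `n ≤ G n` for all `n`, its
spectrum is the closed disc `{z | ‖2 z - 1‖ ≤ 1}`.

* Inside: for `lam` in the open disc the vector equal to `ζ ^ (j - N)` on a block starting at `N`,
  `ζ = a + c / lam`, `|ζ| > 1`, is an approximate eigenvector.
* Outside: the restriction `R` to a tail space satisfies `‖1 - 2 R‖ ≤ 1 + small`, and modulo the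
  tail space the operator is nilpotent.
-/

set_option autoImplicit false
open Finset
open scoped ENNReal NNReal

namespace Pool.Agent.Y136.DS

open Pool.Agent.Helper328.Uni

noncomputable section

variable {G : ℕ → ℕ} (hG : ∀ n, 2 ≤ G n) (hm : Monotone G)

/-- geometric vector on the block `[N, N + len)` -/
def bz (G : ℕ → ℕ) (N : ℕ) (ζ : ℂ) : HH :=
  ⟨fun j => if N ≤ j ∧ j < N + len G N then ζ ^ (j - N) else 0, by
    apply memlp_of_sums _ (∑ i ∈ Ico N (N + len G N), ‖ζ ^ (i - N)‖ ^ 2)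
    intro n
    have h1 : ∀ i ∈ range n, ‖(if N ≤ i ∧ i < N + len G N then ζ ^ (i - N) else 0)‖ ^ 2 =
        if i ∈ Ico N (N + len G N) then ‖ζ ^ (i - N)‖ ^ 2 else 0 := by
      intro i _
      simp only [Finset.mem_Ico]
      split_ifs <;> simp
    rw [Finset.sum_congr rfl h1, ← Finset.sum_filter]
    apply Finset.sum_le_sum_of_subset_of_nonneg
    · intro i hi
      exact (Finset.mem_filter.mp hi).2
    · intro i _ _
      positivity⟩

lemma bz_apply (N : ℕ) (ζ : ℂ) (j : ℕ) :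
    (bz G N ζ) j = if N ≤ j ∧ j < N + len G N then ζ ^ (j - N) else 0 := rfl

include hG in
/-- the output inside the block -/
lemma bz_inside (N : ℕ) (hN : st G N = N) (lam ζ : ℂ)
    (hζ : lam * ζ = (aa G N : ℂ) * lam + (cc G N : ℂ)) (i : ℕ) (hi : i < len G N) :
    filt G (bz G N ζ) (N + i) = lam * (ζ ^ i - (aa G N : ℂ) ^ i) := by
  induction i with
  | zero =>
    have h := filt_zero_of (G := G) (bz G N ζ) N (by
      intro j hj
      rw [bz_apply, if_neg (by omega)]) N (le_refl _)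
    rw [add_zero, h]; simp
  | succ i ih =>
    have h1 := ih (by omega)
    have hb : st G (N + i + 1) = N := st_block G N hN (i + 1) hi
    have hb' : st G (N + i) = N := st_block G N hN i (by omega)
    have e1 : al G (N + i) = aa G N := by
      unfold al; rw [if_neg (by rw [hb]; omega), hb']
    have e2 : ga G (N + i) = cc G N := by
      unfold ga; rw [if_neg (by rw [hb]; omega), hb']
    have : filt G (bz G N ζ) (N + (i + 1)) = (al G (N + i) : ℂ) * filt G (bz G N ζ) (N + i) +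
        (ga G (N + i) : ℂ) * (bz G N ζ) (N + i) := rfl
    rw [this, h1, e1, e2, bz_apply, if_pos (by omega), Nat.add_sub_cancel_left, pow_succ, pow_succ]
    linear_combination (-(ζ ^ i)) * hζ

include hG hm in
lemma bz_end (N : ℕ) (hN : st G N = N) (ζ : ℂ) :
    kap G (N + len G N) * ‖filt G (bz G N ζ) (N + len G N)‖ ^ 2 ≤
      4 / G N * ‖ζ ^ (len G N - 1)‖ ^ 2 := by
  have hb : st G (N + len G N) = N + len G N := st_next G N hN
  have hlen : 0 < len G N := by unfold len; omega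
  obtain ⟨M, hM⟩ : ∃ M, N + len G N = M + 1 := ⟨N + len G N - 1, by omega⟩
  have hMN : M - N = len G N - 1 := by omega
  rw [hM] at hb ⊢
  have e1 : al G M = 0 := by unfold al; rw [if_pos hb]
  have e2 : ga G M = 1 / (G (M + 1) : ℝ) ^ 2 := by unfold ga; rw [if_pos hb]
  have h1 : filt G (bz G N ζ) (M + 1) = (al G M : ℂ) * filt G (bz G N ζ) M +
      (ga G M : ℂ) * (bz G N ζ) M := rfl
  rw [h1, e1, e2, Complex.ofReal_zero, zero_mul, zero_add, bz_apply, if_pos (by omega), hMN,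
    norm_mul, Complex.norm_real, Real.norm_eq_abs, mul_pow, sq_abs]
  have h2 := kap_le hG (M + 1)
  have h3 := Gr hG (M + 1)
  have h4 : (G N : ℝ) ≤ G (M + 1) := by exact_mod_cast hm (by omega)
  have h5 := Gr hG N
  have h6 : kap G (M + 1) * (1 / (G (M + 1) : ℝ) ^ 2) ^ 2 ≤ 4 / G N := by
    calc kap G (M + 1) * (1 / (G (M + 1) : ℝ) ^ 2) ^ 2
        ≤ 4 * G (M + 1) * (1 / (G (M + 1) : ℝ) ^ 2) ^ 2 := by gcongr
      _ = 4 / (G (M + 1) : ℝ) ^ 3 := by field_simp
      _ ≤ 4 / (G N : ℝ) := by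
        apply div_le_div_of_nonneg_left (by norm_num) (by linarith)
        nlinarith [mul_self_nonneg ((G (M + 1) : ℝ) - 1), mul_pos (by linarith : (0 : ℝ) <
          G (M + 1)) (by linarith : (0 : ℝ) < G (M + 1))]
  calc kap G (M + 1) * ((1 / (G (M + 1) : ℝ) ^ 2) ^ 2 * ‖ζ ^ (len G N - 1)‖ ^ 2)
      = (kap G (M + 1) * (1 / (G (M + 1) : ℝ) ^ 2) ^ 2) * ‖ζ ^ (len G N - 1)‖ ^ 2 := by ring
    _ ≤ _ := by gcongr

include hG hm in
lemma near_eig (N : ℕ) (hN : st G N = N) (lam ζ : ℂ)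
    (hζ : lam * ζ = (aa G N : ℂ) * lam + (cc G N : ℂ)) :
    ‖TT G hG hm (bz G N ζ) - lam • bz G N ζ‖ ≤
      Real.sqrt (‖lam‖ ^ 2 * G N + 1 / G N * ‖ζ ^ (len G N - 1)‖ ^ 2) := by
  apply norm_le_of_sums _ _ (Real.sqrt_nonneg _)
  intro n
  have hg := Gr hG N
  rw [Real.sq_sqrt (by positivity)]
  have ha1 := aa_ge hG N
  have ha2 := aa_lt hG N
  set L := len G N with hL
  set D : ℕ → ℂ := fun j => (TT G hG hm (bz G N ζ) - lam • bz G N ζ) j with hD
  have hDe : ∀ j, D j = filt G (bz G N ζ) j - lam * (bz G N ζ) j := fun j => rfl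
  -- enlarge the sum
  have hext : ∑ j ∈ range n, ‖D j‖ ^ 2 ≤ ∑ j ∈ range (max n (N + L)), ‖D j‖ ^ 2 := by
    apply Finset.sum_le_sum_of_subset_of_nonneg
    · intro j hj
      have := Finset.mem_range.mp hj
      exact Finset.mem_range.mpr (lt_of_lt_of_le this (le_max_left _ _))
    · intro j _ _; positivity
  refine hext.trans ?_
  set K := max n (N + L) with hK
  have hKN : N + L ≤ K := le_max_right _ _
  rw [Finset.range_eq_Ico, ← Finset.sum_Ico_consecutive _ (Nat.zero_le N) (by omega : N ≤ K),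
    ← Finset.sum_Ico_consecutive _ (by omega : N ≤ N + L) hKN]
  have s1 : ∑ j ∈ Ico 0 N, ‖D j‖ ^ 2 = 0 := by
    apply Finset.sum_eq_zero
    intro j hj
    have hj' := (Finset.mem_Ico.mp hj).2
    rw [hDe, filt_zero_of (G := G) (bz G N ζ) N (by
      intro j hj
      rw [bz_apply, if_neg (by omega)]) j hj'.le, bz_apply, if_neg (by omega)]
    simp
  have s2 : ∑ j ∈ Ico N (N + L), ‖D j‖ ^ 2 ≤ ‖lam‖ ^ 2 * G N := by
    have e1 : ∑ j ∈ Ico N (N + L), ‖D j‖ ^ 2 = ∑ i ∈ range L, ‖D (N + i)‖ ^ 2 := by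
      rw [Finset.sum_Ico_eq_sum_range, Nat.add_sub_cancel_left]
    rw [e1]
    have e2 : ∀ i ∈ range L, ‖D (N + i)‖ ^ 2 = ‖lam‖ ^ 2 * (aa G N ^ 2) ^ i := by
      intro i hi
      have hi' := Finset.mem_range.mp hi
      rw [hDe, bz_inside hG N hN lam ζ hζ i hi', bz_apply, if_pos (by omega),
        Nat.add_sub_cancel_left]
      have : lam * (ζ ^ i - (aa G N : ℂ) ^ i) - lam * ζ ^ i = -(lam * (aa G N : ℂ) ^ i) := by ring
      rw [this, norm_neg, norm_mul, norm_pow, Complex.norm_real, Real.norm_eq_abs,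
        abs_of_nonneg (by linarith)]
      ring
    rw [Finset.sum_congr rfl e2, ← Finset.mul_sum]
    have hgeo : ∑ i ∈ range L, (aa G N ^ 2) ^ i ≤ G N := by
      have h1 : (1 - aa G N ^ 2) * ∑ i ∈ range L, (aa G N ^ 2) ^ i ≤ 1 := by
        rw [mul_neg_geom_sum]
        have : 0 ≤ (aa G N ^ 2) ^ L := by positivity
        linarith
      have h2 := one_sub_sq hG N
      have h3 : 0 ≤ ∑ i ∈ range L, (aa G N ^ 2) ^ i := Finset.sum_nonneg fun i _ => by positivity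
      have h4 : 1 / (G N : ℝ) * ∑ i ∈ range L, (aa G N ^ 2) ^ i ≤ 1 :=
        (mul_le_mul_of_nonneg_right h2 h3).trans h1
      rw [one_div_mul_eq_div, div_le_one (by linarith)] at h4
      exact h4
    exact mul_le_mul_of_nonneg_left hgeo (by positivity)
  have s3 : ∑ j ∈ Ico (N + L) K, ‖D j‖ ^ 2 ≤ 1 / G N * ‖ζ ^ (L - 1)‖ ^ 2 := by
    have h1 := energy hG hm (bz G N ζ) (N + L) (st_next G N hN) K hKN
    have h2 := bz_end hG hm N hN ζ
    have h3 : ∑ j ∈ Ico (N + L) K, ‖(bz G N ζ) j‖ ^ 2 = 0 := by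
      apply Finset.sum_eq_zero
      intro j hj
      have := (Finset.mem_Ico.mp hj).1
      rw [bz_apply, if_neg (by omega)]; simp
    have h4 : ∑ j ∈ Ico (N + L) K, ‖2 * filt G (bz G N ζ) j - (bz G N ζ) j‖ ^ 2 =
        4 * ∑ j ∈ Ico (N + L) K, ‖D j‖ ^ 2 := by
      rw [Finset.mul_sum]
      apply Finset.sum_congr rfl
      intro j hj
      have := (Finset.mem_Ico.mp hj).1
      rw [hDe, bz_apply, if_neg (by omega), mul_zero, sub_zero, sub_zero, norm_mul, mul_pow]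
      congr 1
      norm_num
    rw [h3, h4, mul_zero, add_zero] at h1
    have h5 : 0 ≤ kap G (st G K) * ‖filt G (bz G N ζ) K‖ ^ 2 :=
      mul_nonneg (kap_pos hG _).le (by positivity)
    have h6 : 4 / (G N : ℝ) * ‖ζ ^ (L - 1)‖ ^ 2 = 4 * (1 / G N * ‖ζ ^ (L - 1)‖ ^ 2) := by ring
    rw [← hL, h6] at h2
    linarith
  rw [s1]
  linarith

/-! ### Points of the open disc -/

lemma re_inv_of_disc {lam : ℂ} (h : ‖2 * lam - 1‖ < 1) : lam ≠ 0 ∧ 1 < (lam⁻¹).re := by
  have h0 : lam ≠ 0 := by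
    rintro rfl
    norm_num at h
  refine ⟨h0, ?_⟩
  have h1 : ‖2 * lam - 1‖ ^ 2 < 1 := by
    have := norm_nonneg (2 * lam - 1)
    nlinarith
  rw [Complex.sq_norm, Complex.normSq_apply] at h1
  simp only [Complex.sub_re, Complex.mul_re, Complex.sub_im, Complex.mul_im, Complex.re_ofNat,
    Complex.im_ofNat, zero_mul, sub_zero, add_zero, Complex.one_re, Complex.one_im] at h1
  rw [Complex.inv_re, lt_div_iff₀ (Complex.normSq_pos.2 h0), one_mul, Complex.normSq_apply]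
  nlinarith

include hG in
lemma norm_zeta (N : ℕ) {w : ℂ} {η : ℝ} (hη : 0 ≤ η) (hw : 1 + η ≤ w.re) :
    1 + η / (2 * G N) ≤ ‖(aa G N : ℂ) + (cc G N : ℂ) * w‖ := by
  have h1 := aa_ge hG N
  have h2 := cc_ge hG N
  have hg := Gr hG N
  have h3 : ((aa G N : ℂ) + (cc G N : ℂ) * w).re = aa G N + cc G N * w.re := by
    simp
  have h4 : aa G N + cc G N * w.re ≤ ‖(aa G N : ℂ) + (cc G N : ℂ) * w‖ := by
    rw [← h3]
    exact Complex.re_le_norm _
  have hc0 : 0 ≤ cc G N := le_trans (by positivity) h2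
  have h5 : 1 ≤ aa G N + cc G N := by
    unfold cc
    rw [← sub_nonneg]
    have : aa G N + (1 - aa G N ^ 2) / (2 * aa G N) - 1 = (1 - aa G N) ^ 2 / (2 * aa G N) := by
      have : aa G N ≠ 0 := by linarith
      field_simp
      ring
    rw [this]
    positivity
  have h6 : cc G N * (1 + η) ≤ cc G N * w.re := mul_le_mul_of_nonneg_left hw hc0
  have h7 : η / (2 * G N) ≤ cc G N * η := by
    have : η / (2 * G N) = 1 / (2 * G N) * η := by ring
    rw [this]
    exact mul_le_mul_of_nonneg_right h2 hη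
  linarith

include hG in
lemma norm_zeta_pow (N : ℕ) {w : ℂ} {η : ℝ} (hη : 0 ≤ η) (hw : 1 + η ≤ w.re) :
    G N * η ≤ ‖((aa G N : ℂ) + (cc G N : ℂ) * w) ^ (len G N - 1)‖ := by
  have h1 := norm_zeta hG N hη hw
  have hg := Gr hG N
  rw [norm_pow]
  have h2 : (1 + η / (2 * G N)) ^ (len G N - 1) ≤
      ‖(aa G N : ℂ) + (cc G N : ℂ) * w‖ ^ (len G N - 1) :=
    pow_le_pow_left₀ (by positivity) h1 _
  refine le_trans ?_ h2
  have h3 := one_add_mul_le_pow (show (-2 : ℝ) ≤ η / (2 * G N) by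
    have : (0 : ℝ) ≤ η / (2 * G N) := by positivity
    linarith) (len G N - 1)
  refine le_trans ?_ h3
  have h4 : ((len G N - 1 : ℕ) : ℝ) = 2 * (G N : ℝ) ^ 2 + 1 := by
    unfold len
    push_cast [Nat.add_sub_cancel]
    norm_num
  rw [h4]
  have h5 : (2 * (G N : ℝ) ^ 2 + 1) * (η / (2 * G N)) = G N * η + η / (2 * G N) := by
    field_simp
  rw [h5]
  have : (0 : ℝ) ≤ η / (2 * G N) := by positivity
  linarith

lemma open_disc_mem_spec (hid : ∀ n, n ≤ G n) {lam : ℂ} (h : ‖2 * lam - 1‖ < 1) :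
    lam ∈ spectrum ℂ (TT G hG hm) := by
  obtain ⟨h0, hre⟩ := re_inv_of_disc h
  set w := lam⁻¹ with hw
  set η : ℝ := w.re - 1 with hη
  have hη0 : 0 < η := by rw [hη]; linarith
  rw [spectrum.mem_iff]
  rintro ⟨u, hu⟩
  set S : HH →L[ℂ] HH := (↑u⁻¹ : HH →L[ℂ] HH) with hS
  have hSm : S * (algebraMap ℂ (HH →L[ℂ] HH) lam - TT G hG hm) = 1 := by
    rw [← hu]; exact u.inv_mul
  have h1 : ∀ x : HH, ‖x‖ ≤ ‖S‖ * ‖TT G hG hm x - lam • x‖ := by
    intro x
    have : x = S (lam • x - TT G hG hm x) := by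
      calc x = (S * (algebraMap ℂ (HH →L[ℂ] HH) lam - TT G hG hm)) x := by rw [hSm]; rfl
        _ = S ((algebraMap ℂ (HH →L[ℂ] HH) lam - TT G hG hm) x) := rfl
        _ = _ := by
          rw [Algebra.algebraMap_eq_smul_one]
          rfl
    calc ‖x‖ = ‖S (lam • x - TT G hG hm x)‖ := by rw [← this]
      _ ≤ ‖S‖ * ‖lam • x - TT G hG hm x‖ := S.le_opNorm _
      _ = _ := by rw [norm_sub_rev]
  set K : ℝ := ‖lam‖ ^ 2 / η ^ 2 + 1 with hK
  have hK0 : 0 < K := by positivity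
  have h2 : ∀ l : ℕ, (l : ℝ) ≤ ‖S‖ ^ 2 * K := by
    intro l
    set N := bd G l with hN
    have hb : (l : ℝ) ≤ G N := by exact_mod_cast (le_bd G l).trans (hid _)
    have hg := Gr hG N
    set ζ : ℂ := (aa G N : ℂ) + (cc G N : ℂ) * w with hζ
    have hζ' : lam * ζ = (aa G N : ℂ) * lam + (cc G N : ℂ) := by
      rw [hζ, hw]
      field_simp
    have h3 := h1 (bz G N ζ)
    have h4 := near_eig hG hm N (st_bd G l) lam ζ hζ'
    set Z : ℝ := ‖ζ ^ (len G N - 1)‖ with hZ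
    have h5 : G N * η ≤ Z := norm_zeta_pow hG N hη0.le (by rw [hη]; linarith)
    have hZ0 : 0 < Z := lt_of_lt_of_le (by positivity) h5
    have h6 : Z ≤ ‖bz G N ζ‖ := by
      have h7 := lp.norm_apply_le_norm (by norm_num : (2 : ℝ≥0∞) ≠ 0) (bz G N ζ)
        (N + (len G N - 1))
      have hlen : 0 < len G N := by unfold len; omega
      rw [bz_apply, if_pos (by omega), Nat.add_sub_cancel_left] at h7
      exact h7
    have h7 : ‖lam‖ ^ 2 * G N + 1 / G N * Z ^ 2 ≤ K / G N * Z ^ 2 := by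
      have h8 : ‖lam‖ ^ 2 * G N ≤ ‖lam‖ ^ 2 / η ^ 2 / G N * Z ^ 2 := by
        have h9 : (G N * η) ^ 2 ≤ Z ^ 2 := pow_le_pow_left₀ (by positivity) h5 2
        calc ‖lam‖ ^ 2 * G N = ‖lam‖ ^ 2 / η ^ 2 / G N * (G N * η) ^ 2 := by
              field_simp
          _ ≤ _ := by gcongr
      calc ‖lam‖ ^ 2 * G N + 1 / G N * Z ^ 2 ≤ ‖lam‖ ^ 2 / η ^ 2 / G N * Z ^ 2 + 1 / G N * Z ^ 2 := by
            linarith
        _ = K / G N * Z ^ 2 := by rw [hK]; ring
    have h8 : ‖bz G N ζ‖ ≤ ‖S‖ * (Real.sqrt (K / G N) * Z) := by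
      refine h3.trans (mul_le_mul_of_nonneg_left (h4.trans ?_) (norm_nonneg _))
      calc Real.sqrt (‖lam‖ ^ 2 * G N + 1 / G N * Z ^ 2) ≤ Real.sqrt (K / G N * Z ^ 2) :=
            Real.sqrt_le_sqrt h7
        _ = Real.sqrt (K / G N) * Z := by
            rw [Real.sqrt_mul (by positivity), Real.sqrt_sq hZ0.le]
    have h9 : 1 ≤ ‖S‖ * Real.sqrt (K / G N) := by
      have h10 : Z ≤ (‖S‖ * Real.sqrt (K / G N)) * Z := by
        calc Z ≤ _ := h6.trans h8
          _ = _ := by ring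
      exact le_of_mul_le_mul_right (by rw [one_mul]; exact h10) hZ0
    have h10 : 1 ≤ ‖S‖ ^ 2 * (K / G N) := by
      have h11 : (1 : ℝ) ≤ (‖S‖ * Real.sqrt (K / G N)) ^ 2 := one_le_pow₀ h9
      rwa [mul_pow, Real.sq_sqrt (by positivity)] at h11
    have h11 : (G N : ℝ) ≤ ‖S‖ ^ 2 * K := by
      have h12 : (1 : ℝ) * G N ≤ ‖S‖ ^ 2 * (K / G N) * G N :=
        mul_le_mul_of_nonneg_right h10 (by linarith)
      rw [one_mul] at h12
      calc (G N : ℝ) ≤ _ := h12
        _ = ‖S‖ ^ 2 * K := by field_simp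
    exact hb.trans h11
  obtain ⟨l, hl⟩ := exists_nat_gt (‖S‖ ^ 2 * K)
  exact absurd (h2 l) (not_le.2 hl)

end

end Pool.Agent.Y136.DS
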