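import Pool.Agent.Y136.DS.Disc

/-!
# The resolvent outside the closed disc, and the exact spectrum
-/

set_option autoImplicit false
open Finset
open scoped ENNReal NNReal

namespace Pool.Agent.Y136.DS

open Pool.Agent.Helper328.Uni

noncomputable section

variable {G : ℕ → ℕ} (hG : ∀ n, 2 ≤ G n) (hm : Monotone G)

include hG in
lemma rho2_le (N : ℕ) : rho2 G N ≤ 1 + 7 / G N := by
  have hg := Gr hG N
  have h1 := inv_G_le hG N
  have h2 := inv_G_pos hG N
  have ha := aa_ge hG N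
  set ε : ℝ := 1 / (G N : ℝ) with hε
  have haa : aa G N = 1 - ε := rfl
  have h3 : 1 / (aa G N) ^ 2 ≤ 1 + 6 * ε := by
    rw [div_le_iff₀ (by positivity), haa]
    nlinarith [mul_nonneg (mul_nonneg h2.le (by linarith : (0 : ℝ) ≤ 1 - 2 * ε))
      (by linarith : (0 : ℝ) ≤ 4 - 3 * ε)]
  have h4 : (7 : ℝ) / G N = 7 * ε := by rw [hε]; ring
  unfold rho2
  rw [h4]
  linarith

include hm in
/-- injectivity of `lam - T` -/
lemma inj_of_ne_zero {lam : ℂ} (h0 : lam ≠ 0) (x : HH) (hx : lam • x - TT G hG hm x = 0) :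
    x = 0 := by
  have h1 : ∀ n, ∀ j < n, x j = 0 := by
    intro n
    induction n with
    | zero => intro j hj; omega
    | succ n ih =>
      intro j hj
      rcases Nat.lt_or_ge j n with h2 | h2
      · exact ih j h2
      · have hjn : j = n := by omega
        subst hjn
        have h3 : (lam • x - TT G hG hm x) j = 0 := by rw [hx]; rfl
        have h4 : lam * x j - (TT G hG hm x) j = 0 := h3
        rw [TT_low hG hm x j ih j (le_refl _), sub_zero] at h4
        rcases mul_eq_zero.1 h4 with h5 | h5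
        · exact absurd h5 h0
        · exact h5
  ext j
  exact h1 (j + 1) j (Nat.lt_succ_self j)

lemma low_TT {N : ℕ} {x : HH} (hx : Low N x) : Low N (TT G hG hm x) :=
  fun j hj => TT_low hG hm x N hx j hj.le

/-- vectors of the tail space are in the range of `lam - T` -/
lemma surj_tail {lam : ℂ} {N : ℕ} (hN : st G N = N)
    (hr : Real.sqrt (rho2 G N) < ‖2 * lam - 1‖) (y : HH) (hy : Low N y) :
    ∃ x, lam • x - TT G hG hm x = y := by
  set μ : ℂ := 2 * lam - 1 with hμ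
  have hμ0 : 0 < ‖μ‖ := lt_of_le_of_lt (Real.sqrt_nonneg _) hr
  have hμ1 : μ ≠ 0 := norm_pos_iff.1 hμ0
  -- the operator `(1 - 2 T) Q`
  let Q : HH →L[ℂ] HH := 1 - PP N
  have hQ : ∀ x, Q x = x - PP N x := fun x => rfl
  have hQlow : ∀ x, Low N (Q x) := by
    intro x j hj
    rw [hQ, QQ_apply, if_pos hj]
  have hQn : ∀ x, ‖Q x‖ ≤ ‖x‖ := fun x => QQ_norm N x
  let C : HH →L[ℂ] HH := (1 - (2 : ℂ) • TT G hG hm) * Q
  have hC : ∀ x, C x = Q x - (2 : ℂ) • TT G hG hm (Q x) := fun x => rfl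
  have hClow : ∀ x, Low N (C x) := fun x => by
    rw [hC]
    exact (hQlow x).sub ((low_TT hG hm (hQlow x)).smul 2)
  have hCn : ‖C‖ ≤ Real.sqrt (rho2 G N) := by
    apply ContinuousLinearMap.opNorm_le_bound _ (Real.sqrt_nonneg _)
    intro x
    rw [hC]
    refine (TT_tail hG hm (Q x) N hN (hQlow x)).trans ?_
    exact mul_le_mul_of_nonneg_left (hQn x) (Real.sqrt_nonneg _)
  have hsm : ‖-(μ⁻¹ • C)‖ < 1 := by
    rw [norm_neg, norm_smul, norm_inv, inv_mul_lt_iff₀ hμ0, mul_one]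
    exact lt_of_le_of_lt hCn hr
  obtain ⟨v, hv⟩ := isUnit_one_sub_of_norm_lt_one hsm
  set z : HH := (v⁻¹ : (HH →L[ℂ] HH)ˣ).val (μ⁻¹ • (2 : ℂ) • y) with hz
  have hz1 : z + μ⁻¹ • C z = μ⁻¹ • (2 : ℂ) • y := by
    have h1 : (v : HH →L[ℂ] HH) z = μ⁻¹ • (2 : ℂ) • y := by
      rw [hz]
      have : (v : HH →L[ℂ] HH) ((v⁻¹ : (HH →L[ℂ] HH)ˣ).val (μ⁻¹ • (2 : ℂ) • y)) =
          ((v : HH →L[ℂ] HH) * (v⁻¹ : (HH →L[ℂ] HH)ˣ).val) (μ⁻¹ • (2 : ℂ) • y) := rfl
      rw [this, v.mul_inv]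
      rfl
    rw [hv] at h1
    have h2 : (1 - -(μ⁻¹ • C)) z = z + μ⁻¹ • C z := by
      rw [sub_neg_eq_add]
      rfl
    rw [← h2]
    exact h1
  have hz2 : μ • z + C z = (2 : ℂ) • y := by
    have := congrArg (fun t => μ • t) hz1
    simp only [smul_add, smul_smul, mul_inv_cancel₀ hμ1, one_smul, mul_one] at this
    rw [← mul_assoc, mul_inv_cancel₀ hμ1, one_mul] at this
    exact this
  have hzlow : Low N z := by
    have h1 : z = μ⁻¹ • ((2 : ℂ) • y - C z) := by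
      rw [← hz2, add_sub_cancel_right, smul_smul, inv_mul_cancel₀ hμ1, one_smul]
    rw [h1]
    exact ((hy.smul 2).sub (hClow z)).smul _
  have hQz : Q z = z := by
    rw [hQ, PP_zero_of N z hzlow, sub_zero]
  have hCz : C z = z - (2 : ℂ) • TT G hG hm z := by rw [hC, hQz]
  refine ⟨z, ?_⟩
  have h3 : (2 : ℂ) • (lam • z - TT G hG hm z) = (2 : ℂ) • y := by
    rw [← hz2, hCz, hμ, sub_smul, mul_smul, one_smul, smul_sub]
    abel
  have h4 := congrArg (fun t => (2 : ℂ)⁻¹ • t) h3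
  simpa only [smul_smul, inv_mul_cancel₀ (two_ne_zero' ℂ), one_smul] using h4

lemma surj_of_out {lam : ℂ} (h0 : lam ≠ 0) {N : ℕ} (hN : st G N = N)
    (hr : Real.sqrt (rho2 G N) < ‖2 * lam - 1‖) (y : HH) :
    ∃ x, lam • x - TT G hG hm x = y := by
  set T := TT G hG hm with hT
  -- telescoping modulo the tail space
  have htel : ∀ k : ℕ, ∃ s : HH, y = (lam • s - T s) + (lam⁻¹) ^ k • (T ^ k) y := by
    intro k
    induction k with
    | zero => exact ⟨0, by simp⟩
    | succ k ih =>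
      obtain ⟨s, hs⟩ := ih
      refine ⟨s + (lam⁻¹) ^ (k + 1) • (T ^ k) y, ?_⟩
      have h1 : lam • ((lam⁻¹) ^ (k + 1) • (T ^ k) y) = (lam⁻¹) ^ k • (T ^ k) y := by
        rw [smul_smul, pow_succ', ← mul_assoc, mul_inv_cancel₀ h0, one_mul]
      have h2 : T ((lam⁻¹) ^ (k + 1) • (T ^ k) y) = (lam⁻¹) ^ (k + 1) • (T ^ (k + 1)) y := by
        rw [map_smul, pow_succ' T k]
        rfl
      rw [smul_add, map_add, h1, h2]
      conv_lhs => rw [hs]
      abel
  obtain ⟨s, hs⟩ := htel N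
  have hlow : Low N ((lam⁻¹) ^ N • (T ^ N) y) := by
    apply Low.smul
    intro j hj
    exact TT_pow_low hG hm y 0 N (by intro i hi; omega) j (by omega)
  obtain ⟨z, hz⟩ := surj_tail hG hm hN hr _ hlow
  refine ⟨s + z, ?_⟩
  rw [smul_add, map_add]
  conv_rhs => rw [hs]
  rw [← hz]
  abel

lemma out_notMem_spec (hid : ∀ n, n ≤ G n) {lam : ℂ} (h : 1 < ‖2 * lam - 1‖) :
    lam ∉ spectrum ℂ (TT G hG hm) := by
  have h0 : lam ≠ 0 := by
    rintro rfl
    norm_num at h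
  rw [spectrum.mem_iff, not_not]
  -- a block start with small `ρ`
  obtain ⟨l, hl⟩ := exists_nat_gt (7 / (‖2 * lam - 1‖ ^ 2 - 1))
  have hq : 0 < ‖2 * lam - 1‖ ^ 2 - 1 := by nlinarith
  set N := bd G (l + 1) with hN
  have hb : ((l + 1 : ℕ) : ℝ) ≤ G N := by exact_mod_cast (le_bd G (l + 1)).trans (hid _)
  have hg := Gr hG N
  have hr : Real.sqrt (rho2 G N) < ‖2 * lam - 1‖ := by
    rw [Real.sqrt_lt' (by linarith)]
    refine lt_of_le_of_lt (rho2_le hG N) ?_
    have h1 : (7 : ℝ) / G N < ‖2 * lam - 1‖ ^ 2 - 1 := by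
      rw [div_lt_iff₀ (by linarith)]
      rw [div_lt_iff₀ hq] at hl
      push_cast at hb
      nlinarith
    linarith
  rw [ContinuousLinearMap.isUnit_iff_bijective]
  have happ : ∀ x, (algebraMap ℂ (HH →L[ℂ] HH) lam - TT G hG hm) x = lam • x - TT G hG hm x := by
    intro x
    rw [Algebra.algebraMap_eq_smul_one]
    rfl
  constructor
  · rw [injective_iff_map_eq_zero]
    intro x hx
    rw [happ] at hx
    exact inj_of_ne_zero hG hm h0 x hx
  · intro y
    obtain ⟨x, hx⟩ := surj_of_out hG hm h0 (st_bd G (l + 1)) hr y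
    exact ⟨x, by rw [happ]; exact hx⟩

/-- **The spectrum is the closed disc.** -/
theorem spectrum_eq (hid : ∀ n, n ≤ G n) :
    spectrum ℂ (TT G hG hm) = Metric.closedBall (1 / 2 : ℂ) (1 / 2) := by
  have hnorm : ∀ lam : ℂ, ‖2 * lam - 1‖ = 2 * ‖lam - 1 / 2‖ := by
    intro lam
    have : 2 * lam - 1 = 2 * (lam - 1 / 2) := by ring
    rw [this, norm_mul]
    norm_num
  apply Set.Subset.antisymm
  · intro lam hl
    rw [mem_closedBall_iff_norm]
    by_contra hcon
    rw [not_le] at hcon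
    exact out_notMem_spec hG hm hid (by rw [hnorm]; linarith) hl
  · have h1 : Metric.ball (1 / 2 : ℂ) (1 / 2) ⊆ spectrum ℂ (TT G hG hm) := by
      intro lam hl
      rw [mem_ball_iff_norm] at hl
      exact open_disc_mem_spec hG hm hid (by rw [hnorm]; linarith)
    rw [← closure_ball (1 / 2 : ℂ) (by norm_num : (1 / 2 : ℝ) ≠ 0)]
    exact closure_minimal h1 (spectrum.isClosed _)

end

end Pool.Agent.Y136.DS
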